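import Pool.Agent.Helper78_E.Neg2a
import Pool.Agent.Helper78_E.Neg2b
import Pool.Agent.Helper78_E.Loc
import Pool.Agent.Helper78_E.LowFar
import Pool.Agent.Helper78_E.StarFar
import Pool.Agent.Helper78_E.Pos
import Pool.Agent.Helper78_E.SpecL
import Pool.Agent.Helper15_E.Line
import Pool.Agent.Helper13_E.Dens
import Pool.Agent.Helper13_E.Resid
import Pool.Agent.Helper18_E.Grow2
import Pool.Agent.Helper18_E.Ne
import Pool.Agent.Helper34_E.Fact
import Pool.Agent.Helper34_E.Thin2
import Pool.Agent.Helper34_E.Far
import Pool.Agent.Helper51_E.Harn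
import Pool.Agent.Helper51_E.Gro
import Pool.Agent.Helper51_E.Riec
import Pool.Agent.Helper61_E.Dual
import Pool.Agent.Helper61_E.Ultra
import Pool.Agent.Helper61_E.Rad
import Pool.Agent.Helper72_E.Bip
import Pool.Agent.Helper85_E.Alg
import Pool.Agent.Helper85_E.Lapu
import Pool.Agent.Helper92_E.Ca
import Pool.Agent.Helper92_E.Ca2
import Pool.Agent.Helper92_E.Pos2
import Pool.Agent.Helper92_E.Riesz
import Pool.Agent.Helper98_E.Lowb
import Pool.Agent.Helper98_E.Star

/-!
# MP_7d2497_an: the sets with property (E), for every weight which is bounded on `[0, ∞)`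
-/

namespace Pool.Agent.Results.MP_7d2497_an.AllBoundedWeights

open MeasureTheory Filter Topology Complex
open Pool.Agent.H78E

/-- Complete description of the sets with property (E) for every weight `φ` which is bounded on
`[0, ∞)`. If the lower limit of `log φ(-t) / √t` at `t → ∞` is zero, then `L` has property (E) if
and only if every closed subset of the line contained in `L` is countable. If it is positive
(or infinite), then `L` has property (E) if and only if for some `R` every closed subset of the
line contained in `L \ (-R, R)` is countable. -/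
theorem result (φ : ℝ → ℝ) (hφ : IsWeight φ) (hb : ∃ C : ℝ, ∀ t : ℝ, 0 ≤ t → φ t ≤ C)
    (L : Set ℝ) :
    ((∀ c : ℝ, 0 < c → ∀ T : ℝ, ∃ t : ℝ, T ≤ t ∧ Real.log (φ (-t)) < c * Real.sqrt t) →
      (PropertyE φ L ↔ ∀ K ⊆ L, IsClosed K → K.Countable)) ∧
    ((∃ c T : ℝ, 0 < c ∧ ∀ t : ℝ, T ≤ t → c * Real.sqrt t ≤ Real.log (φ (-t))) →
      (PropertyE φ L ↔ ∃ R : ℝ, ∀ K ⊆ L, (∀ x ∈ K, R ≤ |x|) → IsClosed K → K.Countable)) := by
  have hL : LapuStmt := H85.lapu
  have hR : ResidStmt := H13.resid
  have hA : AlgStmt := H85.alg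
  have hD : DensStmt := H13.dens
  have hB : LbdStmt := H13.lbd
  have hCA : CAStmt := H92.ca
  have hCA2 : CA2Stmt := H92.ca2
  have hRi : RieszStmt := H92.riesz
  have hBi : BipolarStmt := bipolar
  have hBP : BipolarPosStmt := bipolarPos
  have hLine : LineStmt := Pool.Agent.Helper15_E.line hBi
  have hDu : DualStmt := H61.dual
  have hUl : UltraStmt := H61.ultra
  have hLow : LowbStmt := H98.lowb
  have hStar : StarStmt := H98.star
  have hGrow : Grow2Stmt := H18.grow2
  have hThin : Thin2Stmt := H34.thin2 H34.fact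
  have hFar : FarStmt := H34.far'
  have hSp : SpecLStmt := specL hRi hL hR hA hD hBi hLine
  have hRad : RadStmt := H61.rad H34.fact (H18.ne hL)
  have hLoc : LocStmt := loc hL hR hA hD hB H51.harn hRad
  constructor
  · intro hs
    constructor
    · intro hE
      exact neg2a hCA hL hR hA hD hB hLow hDu hBP hLine hThin hStar hGrow φ hφ hb hs L hE
    · intro hc
      exact pos_dir hRi hL hR hA hD hDu hBP hUl hSp φ hφ hb L hc
  · intro hs
    constructor
    · intro hE
      exact neg2b hCA2 hL hR hA hD hB hDu hBP hLine hFar lowFar starFar φ hφ hb L hE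
    · intro hc
      exact H92.pos2 hDu hBi hBP hRi hUl hLine hL hR hA hD hLoc H51.gro H51.riec φ hφ hb hs L hc

end Pool.Agent.Results.MP_7d2497_an.AllBoundedWeights
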