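import Pool.Agent.WK.Fin

/-!
# MP_7d2497_an: the sets with property (E), for every weight with `φ(-t) = o(φ(t))`
-/

set_option autoImplicit false

namespace Pool.Agent.Results.MP_7d2497_an.CoherentFrequencies

open MeasureTheory Filter Topology Complex
open Pool.Agent.H78E

/-- Complete description of the sets with property (E) for every weight `φ` such that
`φ(-t) / φ(t) → 0` as `t → +∞`. A set `L` has property (E) if and only if

(i) there are `R`, `T`, `C` such that every finite sum `p(t) = ∑ c_x exp(-itx)` with frequencies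
`x ∈ L`, `|x| ≥ R`, satisfies `|p(s)| ≤ C φ(-|s|) sup_[0,T] |p|` for all real `s`, and

(ii) `t / φ(t)` is bounded on `[0, ∞)`, or every bounded closed subset of the line contained in
`L` is finite. -/
theorem result (φ : ℝ → ℝ) (hφ : IsWeight φ)
    (ho : Tendsto (fun t : ℝ => φ (-t) / φ t) atTop (𝓝 0)) (L : Set ℝ) :
    PropertyE φ L ↔
      (∃ R T C : ℝ, ∀ (F : Finset ℝ) (c : ℝ → ℂ) (A : ℝ), (∀ x ∈ F, x ∈ L ∧ R ≤ |x|) →
        (∀ t : ℝ, 0 ≤ t → t ≤ T → ‖∑ x ∈ F, c x * expR x t‖ ≤ A) →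
        ∀ s : ℝ, ‖∑ x ∈ F, c x * expR x s‖ ≤ C * A * φ (-|s|)) ∧
      ((∃ C : ℝ, ∀ t : ℝ, 0 ≤ t → t ≤ C * φ t) ∨
        ∀ K ⊆ L, IsClosed K → Bornology.IsBounded K → K.Finite) := by
  rw [Pool.Agent.WK.main φ hφ ho L]
  constructor
  · rintro ⟨⟨R, T, C, h⟩, h2⟩
    refine ⟨⟨R, T, C, fun F c A hF hA s => h F c A (fun x hx => hF x (Finset.mem_coe.1 hx)) hA s⟩, h2⟩
  · rintro ⟨⟨R, T, C, h⟩, h2⟩
    refine ⟨⟨R, T, C, fun F c A hF hA s => h F c A (fun x hx => hF (Finset.mem_coe.2 hx)) hA s⟩, h2⟩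

end Pool.Agent.Results.MP_7d2497_an.CoherentFrequencies
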