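import Pool.Agent.Helper8_X4.Explicit

/-!
# MP_7d2497_an: the sets with property (E), explicit criterion for regular weights
-/

set_option autoImplicit false

namespace Pool.Agent.Results.MP_7d2497_an.ExplicitCriterion

open MeasureTheory Filter Topology Complex
open Pool.Agent.H78E Pool.Agent.WK Pool.Agent.WK2 Pool.Agent.WK4 Pool.Agent.WK6 Pool.Agent.WK7
open Pool.Agent.WK3 (QC Lin)

/-- For `K ⊆ ℝ` let `Ineq φ K C` be the inequality `sup_{t ≤ 0} |p|/φ ≤ C sup_{t ≥ 0} |p|/φ` for
the exponential sums `p(t) = ∑ c_x exp(-itx)` with frequencies in `K`. Let `φ` be a weight and `L` a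
set of reals, and suppose that one of the following holds.

(1) `φ` is quasi-concave on `[0, ∞)` (`QC`) and `log φ(-t) = o(√t)` (`Sml`).

(2) `φ` is regular (`Reg`: an integrability condition on band-limited functions), and `t = O(φ(t))`
on `[0, ∞)` (`Lin`), or `φ` is quasi-concave there and `log φ(-t) ≥ c √t` for large `t` (`Big`), or
`L` has no infinite bounded closed subset (`BddFin`).

Then `L` has property (E) if and only if `Ineq φ (L \ (-R, R)) C` holds for some `R, C` (`FarI`),
and moreover `t = O(φ(t))`, or every closed subset of `L` is countable and every `p ∈ L` has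
`ρ > 0` and `C` with `Ineq φ (L ∩ [p-ρ, p+ρ]) C` (`NearI`), or `log φ(-t) ≥ c √t` for large `t` and
for some `R` every closed subset of `L \ (-R, R)` is countable (`FarC`).

For example all weights `(1 + t⁺)^a (1 + t⁻)^b`, `a, b ≥ 0`, satisfy (1) or (2)
(`Pool.Agent.Helper8_X4.poly_cov`). -/
theorem result (φ : ℝ → ℝ) (hφ : IsWeight φ) (L : Set ℝ)
    (h : (QC φ ∧ Sml φ) ∨ (Reg φ ∧ (Lin φ ∨ (QC φ ∧ Big φ) ∨ BddFin L))) :
    PropertyE φ L ↔ FarI φ L ∧
      (Lin φ ∨ ((∀ K ⊆ L, IsClosed K → K.Countable) ∧ ∀ p ∈ L, NearI φ L p) ∨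
        (Big φ ∧ FarC L)) :=
  Pool.Agent.Helper8_X4.explicit φ hφ L h

end Pool.Agent.Results.MP_7d2497_an.ExplicitCriterion
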