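import Pool.Agent.WK7.Main

/-!
# MP_7d2497_an: the sets with property (E), uniform criterion
-/

namespace Pool.Agent.Results.MP_7d2497_an.UniformCriterion

open MeasureTheory Filter Topology Complex
open Pool.Agent.H78E

/-- Let `φ` be a weight and `L` a set of reals. Suppose that `φ` is quasi-concave on `[0, ∞)`, or
of at least linear growth there, or that `L` has no infinite bounded closed subset, or that
`φ(-t) = o(φ(t))`. Then `L` has property (E) if and only if the following two conditions hold.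
(i) `t = O(φ(t))` on `[0, ∞)`, or every closed subset of `L` is countable, or
`log φ(-t) ≥ c √t` for large `t` and for some `R` every closed subset of `L \ (-R, R)` is countable.
(ii) For every countable `K ⊆ L` which is the spectrum of a function with simple spectrum the
inequality `sup_{t ≤ 0} |p|/φ ≤ C sup_{t ≥ 0} |p|/φ` holds, with a constant `C` which depends on
`K`, for all exponential sums `p` with frequencies in `K`. -/
theorem result (φ : ℝ → ℝ) (hφ : IsWeight φ) (L : Set ℝ)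
    (h : (∃ C : ℝ, 0 < C ∧ ∀ s t : ℝ, 0 < s → s ≤ t →
        φ s ≤ C * φ t ∧ s * φ t ≤ C * (t * φ s)) ∨
      (∃ C : ℝ, ∀ t : ℝ, 0 ≤ t → t ≤ C * φ t) ∨
      (∀ K ⊆ L, IsClosed K → Bornology.IsBounded K → K.Finite) ∨
      Tendsto (fun t : ℝ => φ (-t) / φ t) atTop (𝓝 0)) :
    PropertyE φ L ↔
      ((∃ C : ℝ, ∀ t : ℝ, 0 ≤ t → t ≤ C * φ t) ∨
        (∀ K ⊆ L, IsClosed K → K.Countable) ∨
        ((∃ c T : ℝ, 0 < c ∧ ∀ t : ℝ, T ≤ t → c * Real.sqrt t ≤ Real.log (φ (-t))) ∧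
          ∃ R : ℝ, ∀ K ⊆ L, (∀ x ∈ K, R ≤ |x|) → IsClosed K → K.Countable)) ∧
      ∀ K ⊆ L, K.Countable → (K.Nonempty ∧ ∃ g : ℝ → ℂ, LInfPos φ g ∧ SimpleSpec φ g ∧
          SpecPos φ g = (fun x : ℝ => (x : ℂ)) '' K) →
        ∃ C : ℝ, ∀ (F : Finset ℝ) (c : ℝ → ℂ) (A : ℝ), (F : Set ℝ) ⊆ K →
          (∀ t : ℝ, 0 ≤ t → ‖∑ x ∈ F, c x * expR x t‖ ≤ A * φ t) →
          ∀ t : ℝ, t ≤ 0 → ‖∑ x ∈ F, c x * expR x t‖ ≤ C * A * φ t :=
  Pool.Agent.WK7.zuni φ hφ L h

end Pool.Agent.Results.MP_7d2497_an.UniformCriterion
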